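import Pool.Agent.Lib.L8.PQX.Stm

/-!
# The density theorem for arbitrary convolution operators: the statement

The groups are those of PQX/Stm.lean: `P` an irreducible reduced crystallographic root system with base `b`, `L / K` a finite Galois extension of number fields, `Q : QS b K L` an action of the Galois group on the Dynkin
diagram; `GQ Q` the quasi-split group `G(K)` of type `(P, Q)`, `G` its real group (the closure of `G(K)` in `GL(L ⊗ ℝ)`), `Γ` the arithmetic groups of level `𝔫`, `r`, `s`, `h` the Hecke elements at a finite place `v`.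
The operators are `F(x) ↦ ∫ F(x y) w(y) dρ(y)`, `ρ` any finite measure on `G` with compact support and `w` any integrable function: all archimedean places of `K` together, the places where the group is not split
too, and functions of all types under a maximal compact subgroup.
-/

namespace Pool.Agent.Lib.L8.PQO

open MeasureTheory Matrix NumberField IsDedekindDomain Pool.Agent.Lib.L8.PQX

noncomputable section

set_option linter.unusedSectionVars false

/-- **The inequality** at a point `x`: for orthonormal `F_1, …, F_m` in `L²(Γ \ G)` which are eigenfunctions of the convolution operator of `φ` (eigenvalues `c_l`) and of `Γ h Γ` (eigenvalues `t_l`), and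
`E_l(x) = ∫ F_l(x y) w(y) dρ(y)` (for eigenfunctions of this operator `E_l = κ_l F_l`): `∑_l |c_l t_l W(E_l)|² ≤ X`, `W(E)` the Whittaker coefficient of `E` at `x` (mean value over `(Γ ∩ U) \ U`). -/
def BoundO {G : Type} [Group G] [MeasurableSpace G] [TopologicalSpace G] (U Γ : Subgroup G) [MeasurableSpace U] (μ : Measure G) (ν : Measure U) (h : G) (φ : G → ℂ) (ψ : U → ℂ) (x : G) (ρ : Measure G) (w : G → ℂ)
    (X : ℝ) : Prop :=
  ∀ (D : Set G) (D₀ : Set U), IsFundamentalDomain Γ D μ → IsFundamentalDomain (Γ.subgroupOf U) D₀ ν → ∀ (m : ℕ) (F E : Fin m → G → ℂ) (c t : Fin m → ℂ),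
    (∀ l, Aut Γ μ D h φ (F l) (c l) (t l)) → (∀ l k, ∫ x in D, star (F l x) * F k x ∂μ = if l = k then 1 else 0) → (∀ l x, ∫ y, F l (x * y) * w y ∂ρ = E l x) →
    ∑ l, ‖c l * t l * Wh U ν D₀ ψ (E l) x‖ ^ 2 ≤ X

section fields

variable (K : Type) {L n J B G H R : Type} [Field K] [NumberField K] [Field L] [NumberField L] [Algebra K L] [Fintype n] [DecidableEq n] [Fintype J] [Group G] [TopologicalSpace G] [Group H] [CommRing R]
  [TopologicalSpace R] [Algebra ℝ R]

/-- **The density theorem for convolution operators**, for groups of matrices (notation of `Est` in PQX/Stm.lean; `f = [L : K]`; `dg a` the diagonal entries of the torus element with the value `a_β` at the root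
`β ∈ B`, `A y β` the value at `β` of the element `∑ y_j α_j^∨` of the Lie algebra of the torus, `nr z` the absolute value of the norm of `z ∈ R`, `Adm` the admissible data). For `ε > 0` and a compact set `Ω` in `G`
there is `C` such that for all levels `𝔫`, `v`, `r`, `s` (`𝔫 ≠ 0` prime to the finite place `v`), Hecke elements `h ∈ Γ_v w(π)⁻¹`, nondegenerate characters `ψ` (given by `θ`), torus elements `t` with the values `a_β`,
`x ∈ U t Ω`, admissible data (`w` the weights of the Hecke element, `V` the bound for the support, `X` the bound), finite measures `ρ` on `G`, `ρ`-integrable `g : G → ℂ`, compact sets `S` with `ρ(G - S) = 0` and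
functions `η : G → ℝ^J` (the change of the Iwasawa projection) such that for all `y ∈ S` `η(y)_j ≥ -V_j` and `x y ∈ U t' Ω` with a torus element `t'`, `|a'_β| = |a_β| exp(f β(η(y)))`, and such that `exp(∑ η_j) |g|`
is `ρ`-integrable, the inequality of `BoundO` holds with `C ‖φ‖₂² (∫ exp(∑ η_j) |g| dρ)² X`, for continuous `φ` with support in `Ω`. -/
def EstO (ht : n → ℤ) (p : L →+* R) (Mₕ : H →* Matrix n n L) (M : G →* Matrix n n R) (τ : H →* G) (nr : R → ℝ) (e : J → n × n) (σ : (L ≃ₐ[K] L) → J → J) (dg : (B → R) → n → R) (A : (J → ℝ) → B → ℝ)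
    (Adm : ℝ → Ideal (𝓞 K) → HeightOneSpectrum (𝓞 K) → ℕ → (n → ℤ) → (B → R) → (J → ℝ) → ℝ → Prop) : Prop :=
  ∀ [MeasurableSpace G] [BorelSpace G] [MeasurableSpace (Uni ht M)] [BorelSpace (Uni ht M)] (ε : ℝ), 0 < ε → ∀ Ω : Set G, IsCompact Ω → ∃ C : ℝ,
    ∀ (v : HeightOneSpectrum (𝓞 K)) (𝔫 : Ideal (𝓞 K)), 𝔫 ≠ ⊥ → ¬𝔫 ≤ v.asIdeal → ∀ (r s : ℕ) (π : K), v.valuation K π = WithZero.exp (-1 : ℤ) →
    ∀ (h : H) (w : n → ℤ), h ∈ HG 𝔫 v Mₕ → AtV v r s ht π w (Mₕ h) (Mₕ h⁻¹) → ∀ θ : J → (R →ₗ[ℝ] ℝ), Gen M (Uni ht M) p (Gam 𝔫 v r s ht Mₕ τ) e σ θ →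
    ∀ (t x : G) (a : B → R), M t = Matrix.diagonal (dg a) → (∃ u ∈ Uni ht M, ∃ ω ∈ Ω, x = u * t * ω) → ∀ (V : J → ℝ) (X : ℝ), Adm ε 𝔫 v (r + s) w a V X →
    ∀ (ρ : Measure G) [IsFiniteMeasure ρ] (g : G → ℂ) (S : Set G) (η : G → J → ℝ), Integrable g ρ → IsCompact S → ρ Sᶜ = 0 → Integrable (fun y => Real.exp (∑ j, η y j) * ‖g y‖) ρ →
    (∀ y ∈ S, (∀ j, -V j ≤ η y j) ∧ ∃ (t' : G) (a' : B → R), M t' = Matrix.diagonal (dg a') ∧ (∃ u ∈ Uni ht M, ∃ ω ∈ Ω, x * y = u * t' * ω) ∧ ∀ β, nr (a' β) = nr (a β) * Real.exp (Module.finrank K L * A (η y) β)) →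
    ∀ (μ : Measure G) [μ.IsHaarMeasure] (φ : G → ℂ), Continuous φ → tsupport φ ⊆ Ω → ∀ (ν : Measure (Uni ht M)) [ν.IsHaarMeasure],
    BoundO (Uni ht M) (Gam 𝔫 v r s ht Mₕ τ) μ ν (τ h) φ (psi M (Uni ht M) e θ) x ρ g (C * (∫ y, ‖φ y‖ ^ 2 ∂μ) * (∫ y, Real.exp (∑ j, η y j) * ‖g y‖ ∂ρ) ^ 2 * X)

/-- **The density theorem for convolution operators**, for `H ⊆ A ⊆ GL(L)` and its real group over `R`. -/
def EstCl [IsTopologicalRing R] (ht : n → ℤ) (p : L →+* R) (A : Subgroup (GL n L)) (H : Subgroup A) (nr : R → ℝ) (e : J → n × n) (σ : (L ≃ₐ[K] L) → J → J) (dg : (B → R) → n → R) (vl : (J → ℝ) → B → ℝ)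
    (Adm : ℝ → Ideal (𝓞 K) → HeightOneSpectrum (𝓞 K) → ℕ → (n → ℤ) → (B → R) → (J → ℝ) → ℝ → Prop) : Prop :=
  EstO K ht p ((mat A).comp H.subtype) (matR p A H) (emR p A H) nr e σ dg vl Adm

end fields

section statement

variable {ι M N : Type} [Fintype ι] [DecidableEq ι] [AddCommGroup M] [Module ℚ M] [AddCommGroup N] [Module ℚ N]
  {P : RootPairing ι ℚ M N} [P.IsCrystallographic] {b : P.Base} {K L : Type} [Field K] [NumberField K] [Field L] [NumberField L] [Algebra K L] (Q : QS b K L)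

/-- **The admissible data** (`N = N(𝔫)`, `q = N(v)` the norms over `K`, `|z|` the absolute value of the norm from `L ⊗ ℝ` to `ℝ`, `f = [L : K]`): `w` are the weights of a dominant coweight `λ = ∑ c_j α_j^∨` fixed by
the Galois group, `r + s ≥ 1` or `λ = 0`; `|a_i| ≥ N ^ f` for the simple roots `α_i`; `V` is dominant; **`exp(2 ∑ V_j) Q ≤ N ^ (D / 2)`**, `Q = q ^ (∑_{β > 0} ⟨β, λ⟩)`, `D` the number of PQX/Stm.lean (`D / 2 = dim G` for `A₁`, `A₂` and the non-split `A₃`); `X = (exp(2 ∑ V_j) Q) ^ ε Q ∏_{β > 0} |a_β| ^ (1/f) / N`. -/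
def AdmO (ε : ℝ) (𝔫 : Ideal (𝓞 K)) (v : HeightOneSpectrum (𝓞 K)) (rs : ℕ) (w : b.support ⊕ ι → ℤ) (a : ι → mixedEmbedding.mixedSpace L) (V : b.support → ℝ) (X : ℝ) : Prop :=
  ∃ (c : b.support → ℤ) (D : ℕ), (∀ s i, c (sp Q s i) = c i) ∧ (∀ i : b.support, 0 ≤ pr b c i) ∧ (1 ≤ rs ∨ c = 0) ∧ w = Sum.elim (fun _ => 0) (pr b c) ∧ Dim b (Module.finrank K L = 1) (∃ s i, sp Q s i ≠ i) D ∧
    (∀ i : b.support, (Ideal.absNorm 𝔫 : ℝ) ^ Module.finrank K L ≤ mixedEmbedding.norm (a i)) ∧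
    (∀ i : b.support, 0 ≤ vl b V i) ∧ Real.exp (2 * ∑ j, V j) * (Ideal.absNorm v.asIdeal : ℝ) ^ (∑ β with 0 < b.height β, pr b c β) ≤ (Ideal.absNorm 𝔫 : ℝ) ^ ((D : ℝ) / 2) ∧
    X = (Real.exp (2 * ∑ j, V j) * (Ideal.absNorm v.asIdeal : ℝ) ^ (∑ β with 0 < b.height β, pr b c β)) ^ ε * (Ideal.absNorm v.asIdeal : ℝ) ^ (∑ β with 0 < b.height β, pr b c β) *
      ∏ β with 0 < b.height β, mixedEmbedding.norm (a β) ^ ((Module.finrank K L : ℝ)⁻¹) / Ideal.absNorm 𝔫

/-- **The density theorem for arbitrary convolution operators**, for the globally generic spectrum of the quasi-split simple group `G(K)` of type `(P, Q)` over the number field `K`. -/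
def OperatorDensity (Q : QS b K L) : Prop :=
  EstCl K (Sum.elim (fun _ => 0) b.height) (mixedEmbedding L) (GL' L b) (GQ Q) mixedEmbedding.norm (fun i => (Sum.inl i, Sum.inr (P.reflectionPerm i i))) (sp Q) (fun a => Sum.elim (fun _ => 1) a) (vl b) (AdmO Q)

end statement

end

end Pool.Agent.Lib.L8.PQO
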