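import Pool.Agent.Lib.L8.PQX.Fin
import Pool.Agent.Lib.L8.PQO.Stm
import Pool.Agent.Lib.L8.QF.OP3

/-!
# The density theorem for arbitrary convolution operators: the equivalence of the two forms of the statement
-/

namespace Pool.Agent.Lib.L8.PQO

open MeasureTheory Matrix NumberField IsDedekindDomain Pool.Agent.Lib.L8.PQX

noncomputable section

set_option linter.unusedSectionVars false

variable {ι M N : Type} [Fintype ι] [DecidableEq ι] [AddCommGroup M] [Module ℚ M] [AddCommGroup N] [Module ℚ N]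
  {P : RootPairing ι ℚ M N} [P.IsCrystallographic] {b : P.Base} {K L : Type} [Field K] [NumberField K] [Field L] [NumberField L] [Algebra K L] (Q : QS b K L)

variable [P.IsRootSystem] [P.IsReduced] [P.IsIrreducible]

theorem dg_inv {t : L1S.HRt (L1S.HQ (q0 Q))} {a : ι → mixedEmbedding.mixedSpace L} (ht : Mr Q t = Matrix.diagonal (Sum.elim (fun _ => 1) a)) (β : ι) : a β * (t⁻¹).1.1.1 (Sum.inr β) (Sum.inr β) = 1 := by
  have h1 : t.1.1.1 * (t⁻¹).1.1.1 = 1 := t.1.1.mul_inv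
  have h2 := congrFun (congrFun h1 (Sum.inr β)) (Sum.inr β)
  have h3 : t.1.1.1 = Matrix.diagonal (Sum.elim (fun _ => 1) a) := ht
  rw [h3, Matrix.diagonal_mul, Matrix.one_apply_eq] at h2
  exact h2

theorem estO [IsGalois K L] {D : ℕ} (hD : ∀ D', Dim b (Module.finrank K L = 1) (∃ s i, sp Q s i ≠ i) D' → D' ≤ D) (hS : L8.QF.StatementOQ (q0 Q) ((D : ℝ) / 2)) : OperatorDensity Q := by
  intro m1 hm1 m2 hm2 ε hε Ω hΩ
  obtain rfl : m1 = borel _ := hm1.measurable_eq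
  obtain rfl : m2 = borel _ := hm2.measurable_eq
  have hΩ' : IsCompact ((fun x : L1S.HRt (L1S.HQ (q0 Q)) => x.1.1) '' Ω) := hΩ.image (continuous_subtype_val.comp continuous_subtype_val)
  obtain ⟨C, hC⟩ := hS ε hε _ Ω hΩ' hΩ
  refine ⟨C, ?_⟩
  rintro v 𝔫 h𝔫 hv r s π hπ h w hh hat θ hθ t x a ht ⟨u, hu, ω, hω, hx⟩ V X ⟨c, D', hcQ, hc, hrs, rfl, hD', ha, hV, hsz, rfl⟩ ρ hρ g S η ig cS ρS iη hη μ hμ φ cφ sφ ν hν D₁ D₀ hD₁ hD₀ m f E c' t' hf hort hE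
  have hn : (1 : ℝ) ≤ (Ideal.absNorm 𝔫 : ℝ) := by
    have h1 : 0 < Ideal.absNorm 𝔫 := Nat.pos_of_ne_zero fun e => h𝔫 (Ideal.absNorm_eq_zero_iff.1 e)
    exact_mod_cast h1
  let a' : ι → (mixedEmbedding.mixedSpace L)ˣ := fun β => Units.mkOfMulEqOne _ _ (dg_inv Q ht β)
  have hθ' := gen_of Q hθ
  rw [gam_eq] at hD₁ hD₀ hf
  have hV' : ∀ i, 0 ≤ L8.al (fun i j => b.cartanMatrix i j) i V := fun i => by
    have h : 0 ≤ PV.vl b V i := hV i
    rw [← PV.pry_inr, L8.ig19b_al] at h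
    exact h
  have k1 := hC v 𝔫 h𝔫 hv r s c (fun s i => hcQ s i) hc (by
    rcases hrs with h1 | h1
    · exact Or.inl h1
    · exact Or.inr h1) π hπ h (hgl_of Q hh) (at_of Q hat) θ hθ' x a' ha V hV' (by
    have hDD : (D' : ℝ) / 2 ≤ (D : ℝ) / 2 := by
      have h1 : (D' : ℝ) ≤ (D : ℝ) := by exact_mod_cast hD _ hD'
      linarith
    exact hsz.trans (Real.rpow_le_rpow_of_exponent_le hn hDD))
  have k2 := @k1 ρ hρ g ig S cS ρS η iη (fun y hy => by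
    obtain ⟨h1, t₁, a₁, ht₁, ⟨u₁, hu₁, ω₁, hω₁, hx₁⟩, h2⟩ := hη y hy
    refine ⟨h1, t₁, fun β => Units.mkOfMulEqOne _ _ (dg_inv Q ht₁ β), ht₁, fun β => ?_, ⟨u₁, hu₁⟩, ω₁.1.1, ⟨ω₁, hω₁, rfl⟩, congrArg (fun z : Gr Q => z.1.1.1) hx₁⟩
    have h3 := h2 β
    have e : vl b (η y) β = L8.pry b (η y) (Sum.inr β) := (PV.pry_inr _ _).symm
    rw [← e]
    exact h3) μ hμ φ cφ sφ ν hν D₁ hD₁ m f E c' t' (fun l => (aut_of Q (hf l)).1) (fun l => (aut_of Q (hf l)).2) hE hort D₀ hD₀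
  refine le_trans (le_of_eq rfl) (k2.trans (le_of_eq ?_))
  have e1 : (∏ β ∈ L1S.Pos b, mixedEmbedding.norm (a' β : mixedEmbedding.mixedSpace L)) ^ ((Module.finrank K L : ℝ)⁻¹) / (Ideal.absNorm 𝔫 : ℝ) ^ (L1S.Pos b).card =
      ∏ β with 0 < b.height β, mixedEmbedding.norm (a β) ^ ((Module.finrank K L : ℝ)⁻¹) / Ideal.absNorm 𝔫 :=
    real_vol (L1S.Pos b) (fun β => mixedEmbedding.norm (a β)) (fun β => mixedEmbedding.norm_nonneg _) _ _
  have e3 : ∑ β ∈ L1S.Pos b, L1S.pr b c (Sum.inr β) = ∑ β with 0 < b.height β, pr b c β := rfl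
  rw [e1, e3]
  have e4 : ∀ x1 x2 x3 x4 x5 x6 : ℝ, x1 * x2 * x3 * x4 * x5 * x6 = x1 * x5 * x2 * (x3 * x4 * x6) := fun x1 x2 x3 x4 x5 x6 => by ring
  exact e4 _ _ _ _ _ _

/-- Without a number `D` there is nothing to prove. -/
theorem estO_no (he : ¬∃ D, Dim b (Module.finrank K L = 1) (∃ s i, sp Q s i ≠ i) D) : OperatorDensity Q := by
  intro m1 hm1 m2 hm2 ε hε Ω hΩ
  refine ⟨0, ?_⟩
  rintro v 𝔫 h𝔫 hv r s π hπ h' w hh hat θ hθ t x a ht hx V X ⟨c, D', hcQ, hc, hrs, hw, hD', _⟩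
  exact absurd ⟨D', hD'⟩ he

/-- **The density theorem for convolution operators**, from the statement of QF/OP2. -/
theorem operator_of [IsGalois K L] (h : ∀ D, Dim b (Module.finrank K L = 1) (∃ s i, sp Q s i ≠ i) D → L8.QF.StatementOQ (q0 Q) ((D : ℝ) / 2)) : OperatorDensity Q := by
  by_cases he : ∃ D, Dim b (Module.finrank K L = 1) (∃ s i, sp Q s i ≠ i) D
  · obtain ⟨D, h1, h2⟩ := ex_dim he
    exact estO Q h2 (h D h1)
  · exact estO_no Q he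

/-- **The density theorem for convolution operators**, from the count. -/
theorem operator_of_counts (Q : QS b K L) [IsGalois K L]
    (hs : Module.finrank K L = 1 → ∃ nu : Equiv.Perm ι → ℝ, (∀ D, Dim b True False D → L8.FL.IneqR b ((D : ℝ) / 2) nu) ∧ L8.FL.CountH b L nu)
    (hq : (∃ s i, sp Q s i ≠ i) → ∃ nu : Equiv.Perm ι → ℝ, (∀ D, Dim b False True D → L8.QF.IneqQ (q0 Q) ((D : ℝ) / 2) nu) ∧ L8.QF.CountQ (q0 Q) nu) : OperatorDensity Q := by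
  refine operator_of Q fun D hD => ?_
  by_cases h1 : Module.finrank K L = 1
  · obtain ⟨_, h2⟩ := dim_split (fin_deg_one h1 Q) hD
    obtain ⟨nu, h3, h4⟩ := hs h1
    exact L8.QF.statementOQ_split (q0 Q) h1 (dim_half hD) (h3 D h2) h4
  · obtain ⟨h2, h3⟩ := dim_quasi h1 hD
    obtain ⟨nu, h4, h5⟩ := hq h2
    exact L8.QF.statementOQ_quasi (q0 Q) (dim_half hD) (h4 D h3) h5

end

end Pool.Agent.Lib.L8.PQO
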